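import Pool.Agent.Work.MP_14a437_ag.Defs

/-!
# K/Basic : elementary properties of the Grothendieck group
-/

open CategoryTheory CategoryTheory.Limits CategoryTheory.Pretriangulated ZeroObject

universe v u

namespace MP_14a437_ag

variable {C : Type u} [Category.{v} C] [Preadditive C] [HasZeroObject C] [HasShift C ℤ]
  [∀ n : ℤ, (shiftFunctor C n).Additive] [Pretriangulated C]

theorem cl_dist (T : Triangle C) (hT : T ∈ distTriang C) : cl T.obj₂ = cl T.obj₁ + cl T.obj₃ := by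
  have h : FreeAbelianGroup.of T.obj₂ - FreeAbelianGroup.of T.obj₁ - FreeAbelianGroup.of T.obj₃ ∈
      AddSubgroup.closure (K0Rel C) := AddSubgroup.subset_closure ⟨T, hT, rfl⟩
  have h2 := (QuotientAddGroup.eq_zero_iff (N := AddSubgroup.closure (K0Rel C)) _).2 h
  have h3 : cl T.obj₂ - cl T.obj₁ - cl T.obj₃ = 0 := h2
  have : cl T.obj₂ = (cl T.obj₂ - cl T.obj₁ - cl T.obj₃) + (cl T.obj₁ + cl T.obj₃) := by abel
  rw [this, h3, zero_add]

theorem cl_tri {X Y Z : C} (f : X ⟶ Y) (g : Y ⟶ Z) (h : Z ⟶ X⟦(1 : ℤ)⟧)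
    (hT : Triangle.mk f g h ∈ distTriang C) : cl Y = cl X + cl Z :=
  cl_dist _ hT

/-- Additive functions on objects extend to the Grothendieck group. -/
noncomputable def K0.lift {A : Type*} [AddCommGroup A] (F : C → A)
    (hF : ∀ T : Triangle C, T ∈ distTriang C → F T.obj₂ = F T.obj₁ + F T.obj₃) : K0 C →+ A :=
  QuotientAddGroup.lift (AddSubgroup.closure (K0Rel C)) (FreeAbelianGroup.lift F) (by
    rw [AddSubgroup.closure_le]
    rintro x ⟨T, hT, rfl⟩
    simp [AddMonoidHom.mem_ker, hF T hT])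

@[simp] theorem K0.lift_cl {A : Type*} [AddCommGroup A] (F : C → A)
    (hF : ∀ T : Triangle C, T ∈ distTriang C → F T.obj₂ = F T.obj₁ + F T.obj₃) (X : C) :
    K0.lift F hF (cl X) = F X := by
  simp [K0.lift, cl]
  exact FreeAbelianGroup.lift_apply_of _ _

theorem K0.hom_ext {A : Type*} [AddCommGroup A] {f g : K0 C →+ A}
    (h : ∀ X : C, f (cl X) = g (cl X)) : f = g := by
  refine QuotientAddGroup.addMonoidHom_ext _ ?_
  exact FreeAbelianGroup.lift_ext _ _ fun X => h X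

theorem cl_zero {X : C} (h : IsZero X) : cl X = 0 := by
  have hT : Triangle.mk (𝟙 X) (0 : X ⟶ X) (0 : X ⟶ X⟦(1 : ℤ)⟧) ∈ distTriang C := by
    rw [Triangle.distinguished_iff_of_isZero₃ _ h]
    exact (inferInstance : IsIso (𝟙 X))
  have := cl_tri _ _ _ hT
  simpa using this

theorem cl_iso {X Y : C} (e : X ≅ Y) : cl X = cl Y := by
  have hT : Triangle.mk e.hom (0 : Y ⟶ 0) (0 : (0 : C) ⟶ X⟦(1 : ℤ)⟧) ∈ distTriang C := by
    rw [Triangle.distinguished_iff_of_isZero₃ _ (isZero_zero C)]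
    exact (inferInstance : IsIso e.hom)
  have := cl_tri _ _ _ hT
  rw [cl_zero (isZero_zero C)] at this
  simpa using this.symm

theorem cl_shift (X : C) : cl (X⟦(1 : ℤ)⟧) = - cl X := by
  have h := cl_dist _ (contractible_distinguished₂ X)
  have h2 : cl (0 : C) = cl X + cl (X⟦(1 : ℤ)⟧) := h
  rw [cl_zero (isZero_zero C)] at h2
  exact eq_neg_of_add_eq_zero_right h2.symm

theorem cl_shiftn (X : C) (n : ℤ) : cl (X⟦n⟧) = (n.negOnePow : ℤ) • cl X := by
  have hstep : ∀ m : ℤ, cl (X⟦m + 1⟧) = - cl (X⟦m⟧) := by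
    intro m
    rw [← cl_shift]
    exact cl_iso ((shiftFunctorAdd C m 1).app X)
  induction n using Int.induction_on with
  | zero => simpa using cl_iso ((shiftFunctorZero C ℤ).app X)
  | succ i ih => rw [hstep, ih, Int.negOnePow_succ]; simp
  | pred i ih =>
    have h := hstep (-(i : ℤ) - 1)
    rw [show (-(i : ℤ) - 1 + 1) = -(i : ℤ) by ring, ih] at h
    have h2 : cl (X⟦(-(i : ℤ) - 1)⟧) = - ((Int.negOnePow (-(i : ℤ)) : ℤ) • cl X) := by
      rw [h, neg_neg]
    rw [h2, show Int.negOnePow (-(i : ℤ)) = - Int.negOnePow (-(i : ℤ) - 1) by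
      rw [← Int.negOnePow_succ]; congr 1; ring]
    simp

theorem cl_biprod (X Y : C) : cl (X ⊞ Y) = cl X + cl Y :=
  cl_dist _ (binaryBiproductTriangle_distinguished X Y)

theorem exists_obj (x : K0 C) : ∃ X : C, cl X = x := by
  obtain ⟨y, rfl⟩ := QuotientAddGroup.mk_surjective (s := AddSubgroup.closure (K0Rel C)) x
  induction y using FreeAbelianGroup.induction_on with
  | zero => exact ⟨0, cl_zero (isZero_zero C)⟩
  | of X => exact ⟨X, rfl⟩
  | neg X h =>
    refine ⟨X⟦(1 : ℤ)⟧, ?_⟩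
    rw [cl_shift]; rfl
  | add x y hx hy =>
    obtain ⟨X, hX⟩ := hx
    obtain ⟨Y, hY⟩ := hy
    refine ⟨X ⊞ Y, ?_⟩
    rw [cl_biprod, hX, hY]; rfl

end MP_14a437_ag
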